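import Mathlib
import Pool.Agent.MPG.MMain

/-!
# MP_100167_gt: minimum points of the fibered faces of Dehn fillings, general form

`MPG.MDatum` (file `Pool/Agent/MPG/MDefs.lean`) is a Laurent polynomial `∑_{g ∈ S} a_g g` on `ℤ^ι` with two
opposite vertices of coefficient `1` and `±1` cutting out an open cone, whose entropy (the logarithm of the
largest root of `∑ a_g u^{g(x)}`) exists and is a simple root on the cone, with `1 / entropy` strictly concave,
together with a norm functional `e` and finitely many pairs `μ j, lam j`, all linearly independent.
The slopes `p_j μ_j + q_j lam_j` cut out `Face s`, normalised by `e(x) - ∑ |t_j| = 1`.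
-/

namespace Pool.Agent.Results.MP_100167_gt.FilledFaces

open MPG

/-- For every compact subset `K` of the cone, only finitely many tuples of coprime slopes have a rational
minimum point of the entropy in `K`. -/
theorem result {ι J : Type} [Fintype ι] [Fintype J] (D : MDatum ι J) (K : Set (ι → ℝ))
    (hK : IsCompact K) (hKC : K ⊆ D.cone) :
    {s : J → ℤ × ℤ | (∀ j, IsCoprime (s j).1 (s j).2) ∧
      ∃ m ∈ K, Rational m ∧ D.IsMinPt s m}.Finite :=
  mmain D K hK hKC

end Pool.Agent.Results.MP_100167_gt.FilledFaces
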