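import Pool.Agent.MPG.LargeFin
import Pool.Agent.MAG.Exist

/-!
# MP_100167_gt: fillings of the magic manifold with an irrational minimum point

`N` is the magic manifold (exterior of the three-chain link), `(x, y, z)` are the usual
coordinates of `H^1(N; R)`. On the fibered face with vertices `(1,0,0), (1,1,1), (0,1,0),
(0,0,-1)` the Thurston norm is `x + y - z` and the dilatation is the largest root of the
specialised Teichmueller polynomial `t^(x+y-z) - t^x - t^y - t^(x-z) - t^(y-z) + 1`.
The classes which extend to the filling `N(-p/q)` of the second cusp are those with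
`q (x + z) = p y`; for `q ≥ 2` the monodromies extend to pseudo-Anosov maps with the same
dilatation, and the norm in `N(-p/q)` is `x + y - z - y/q`.
-/

namespace Pool.Agent.Results.MP_100167_gt.MagicFillings

/-- the dilatation of a class of the fibered cone: the largest root of the specialised
Teichmueller polynomial -/
noncomputable def dil (x y z : ℝ) : ℝ :=
  sSup {t : ℝ | 1 < t ∧ t ^ (x + y - z) - t ^ x - t ^ y - t ^ (x - z) - t ^ (y - z) + 1 = 0}

/-- the open fibered cone of the magic manifold -/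
def Cone (x y z : ℝ) : Prop := 0 < x ∧ 0 < y ∧ z < x ∧ z < y

/-- the open fibered face of the filling `N(-p/q)` -/
def Face (p q : ℤ) (x y z : ℝ) : Prop :=
  Cone x y z ∧ q * (x + z) = p * y ∧ x + y - z - y / q = 1

/-- `(x, y, z)` is a minimum point of the dilatation on the face -/
def IsMin (p q : ℤ) (x y z : ℝ) : Prop :=
  Face p q x y z ∧ ∀ x' y' z' : ℝ, Face p q x' y' z' → dil x y z ≤ dil x' y' z'

private theorem dil_eq {x y z t : ℝ} (h : Cone x y z) (ht : MAG.IsDil x y z t) :
    dil x y z = t := by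
  have hset : {t : ℝ | 1 < t ∧ t ^ (x + y - z) - t ^ x - t ^ y - t ^ (x - z) - t ^ (y - z) + 1
      = 0} = {t} := by
    ext s
    simp only [Set.mem_setOf_eq, Set.mem_singleton_iff]
    constructor
    · rintro ⟨h1, h2⟩
      exact (MAG.exists_unique_dil h).unique ⟨h1, by linarith⟩ ht
    · rintro rfl
      exact ⟨ht.1, by linarith [ht.2]⟩
  unfold dil
  rw [hset, csSup_singleton]

private theorem isMin_iff {p q : ℤ} {x y z : ℝ} : IsMin p q x y z ↔ MAG.IsMinPt p q x y z := by
  constructor
  · rintro ⟨h1, h2⟩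
    refine ⟨h1, ?_⟩
    intro x' y' z' t t' h3 h4 h5
    rw [← dil_eq h1.1 h4, ← dil_eq h3.1 h5]
    exact h2 x' y' z' h3
  · rintro ⟨h1, h2⟩
    refine ⟨h1, ?_⟩
    intro x' y' z' h3
    obtain ⟨t, ht, -⟩ := MAG.exists_unique_dil h1.1
    obtain ⟨t', ht', -⟩ := MAG.exists_unique_dil h3.1
    rw [dil_eq h1.1 ht, dil_eq h3.1 ht']
    exact h2 x' y' z' t t' h3 ht ht'

/-- All but finitely many slopes `-p/q` with `q ≥ 2` have the property: the face of `N(-p/q)` has a
minimum point, and no rational point is one. -/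
theorem result : ∃ E : Finset (ℤ × ℤ), ∀ p q : ℤ, 2 ≤ q → IsCoprime p q → (p, q) ∉ E →
    (∃ x y z : ℝ, IsMin p q x y z) ∧ ∀ x y z : ℚ, ¬ IsMin p q x y z := by
  refine ⟨MPG.Large.finite_all.toFinset, ?_⟩
  intro p q hq hpq hE
  refine ⟨?_, ?_⟩
  · obtain ⟨x, y, z, h⟩ := MAG.exists_minPt (p := p) hq
    exact ⟨x, y, z, isMin_iff.2 h⟩
  · intro x y z h
    exact hE ((Set.Finite.mem_toFinset _).2 ⟨hq, hpq, x, y, z, isMin_iff.1 h⟩)

end Pool.Agent.Results.MP_100167_gt.MagicFillings
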